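import Pool.Agent.MWV.Stmts

/-!
# Row HVY of squad MWV (MP_23468a_al): words of heavy letters
-/

namespace Pool.Agent.MWV.H4

open Pool.Agent.MWV

variable {N : ℕ} {S : List ℕ → List ℕ → Prop}

theorem comm_h (hS : Wo N S) (h h' : ℕ) (h0 : h % 3 = 0) (h0' : h' % 3 = 0) :
    S [h, h'] [h', h] := by
  have h1 := hS.sub (fun a => if a = 0 then [h] else if a = 3 then [h'] else []) (by
    intro b _ a ha
    split_ifs at ha
    · rw [List.mem_singleton.1 ha]; exact h0
    · rw [List.mem_singleton.1 ha]; exact h0'
    · simp at ha) hS.comm
  simpa using h1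

theorem pw_h (hS : Wo N S) (h : ℕ) (h0 : h % 3 = 0) : S (X (N + 1) h) [h] := by
  have h1 := hS.sub (fun a => if a = 0 then [h] else []) (by
    intro b _ a ha
    split_ifs at ha
    · rw [List.mem_singleton.1 ha]; exact h0
    · simp at ha) hS.pw
  have e : (X (N + 1) 0).flatMap (fun a => if a = 0 then [h] else []) = X (N + 1) h := by
    generalize N + 1 = n
    induction n with
    | zero => rfl
    | succ n ih =>
      show (0 :: List.replicate n 0).flatMap _ = h :: List.replicate n h
      rw [List.flatMap_cons]
      show [h] ++ _ = _
      rw [ih]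
      rfl
  rw [e] at h1
  simpa using h1

theorem perm_h (hS : Wo N S) {u v : List ℕ} (hp : u.Perm v) (hu : ∀ a ∈ u, a % 3 = 0) : S u v := by
  induction hp with
  | nil => exact hS.refl _
  | cons a _ ih =>
    exact hS.app (hS.refl [a]) (ih (fun b hb => hu b (List.mem_cons_of_mem _ hb)))
  | swap a b l =>
    exact hS.app (comm_h hS b a (hu b (by simp)) (hu a (by simp))) (hS.refl l)
  | trans h1 _ ih1 ih2 =>
    exact hS.trans (ih1 hu) (ih2 (fun a ha => hu a (h1.mem_iff.2 ha)))

theorem rep1 (hS : Wo N S) (h : ℕ) (h0 : h % 3 = 0) (m : ℕ) (hm : 1 ≤ m) :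
    S (List.replicate (m + N) h) (List.replicate m h) := by
  have h1 := hS.app (pw_h hS h h0) (hS.refl (List.replicate (m - 1) h))
  have e1 : X (N + 1) h ++ List.replicate (m - 1) h = List.replicate (m + N) h := by
    rw [List.replicate_append_replicate]
    congr 1
    omega
  have e2 : [h] ++ List.replicate (m - 1) h = List.replicate m h := by
    obtain ⟨k, rfl⟩ := Nat.exists_eq_add_of_le' hm
    rfl
  rw [e1, e2] at h1
  exact h1

theorem rep2 (hS : Wo N S) (h : ℕ) (h0 : h % 3 = 0) (m : ℕ) (hm : 1 ≤ m) (k : ℕ) :
    S (List.replicate (m + N * k) h) (List.replicate m h) := by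
  induction k with
  | zero => exact hS.refl _
  | succ k ih =>
    have h1 := rep1 hS h h0 (m + N * k) (by omega)
    have e : m + N * k + N = m + N * (k + 1) := by ring
    rw [e] at h1
    exact hS.trans h1 ih

theorem rep3 (hS : Wo N S) (h : ℕ) (h0 : h % 3 = 0) (m m' : ℕ) (hm : 1 ≤ m) (hm' : 1 ≤ m')
    (e : m % N = m' % N) : S (List.replicate m h) (List.replicate m' h) := by
  rcases le_total m m' with hl | hl
  · have h1 : m ≡ m' [MOD N] := e
    have h2 := (Nat.modEq_iff_dvd' hl).1 h1
    obtain ⟨k, hk⟩ := h2
    have h3 : m' = m + N * k := by omega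
    rw [h3]
    exact hS.symm (rep2 hS h h0 m hm k)
  · have h1 : m' ≡ m [MOD N] := e.symm
    have h2 := (Nat.modEq_iff_dvd' hl).1 h1
    obtain ⟨k, hk⟩ := h2
    have h3 : m = m' + N * k := by omega
    rw [h3]
    exact rep2 hS h h0 m' hm' k

theorem perm_split (h : ℕ) (u : List ℕ) :
    u.Perm (List.replicate (u.count h) h ++ u.filter (fun a => decide (a ≠ h))) := by
  have h1 : (u.filter (fun a => a == h) ++ u.filter (fun a => !(a == h))).Perm u :=
    List.filter_append_perm _ _
  have e1 : u.filter (fun a => a == h) = List.replicate (u.count h) h := List.filter_beq h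
  have e2 : u.filter (fun a => !(a == h)) = u.filter (fun a => decide (a ≠ h)) := by
    apply List.filter_congr
    intro a _
    by_cases hh : a = h <;> simp [hh]
  rw [e1, e2] at h1
  exact h1.symm

theorem hvy : HvyStmt := by
  intro N S hS u
  induction hn : u.length using Nat.strong_induction_on generalizing u with
  | _ n ih =>
    intro v hu hv hmem hcount
    cases u with
    | nil =>
      have : v = [] := by
        apply List.eq_nil_iff_forall_not_mem.2
        intro a ha
        have := (hmem a).2 ha
        simp at this
      rw [this]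
      exact hS.refl _
    | cons h t =>
      have hh0 : h % 3 = 0 := hu h (by simp)
      have hhv : h ∈ v := (hmem h).1 (by simp)
      set u : List ℕ := h :: t with hudef
      have hhu : h ∈ u := by simp [hudef]
      have hl : (u.filter (fun a => decide (a ≠ h))).length < n := by
        rw [← hn]
        rw [← List.countP_eq_length_filter]
        apply lt_of_le_of_ne List.countP_le_length
        intro he
        have h2 := List.countP_eq_length.1 he h hhu
        simp at h2
      have hS1 := ih _ hl (u.filter (fun a => decide (a ≠ h))) rfl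
        (v.filter (fun a => decide (a ≠ h)))
        (fun a ha => hu a (List.mem_of_mem_filter ha))
        (fun a ha => hv a (List.mem_of_mem_filter ha))
        (by
          intro a
          rw [List.mem_filter, List.mem_filter, hmem a])
        (by
          intro a
          by_cases ha : a = h
          · subst ha
            rw [List.count_eq_zero_of_not_mem, List.count_eq_zero_of_not_mem]
            · simp
            · simp
          · rw [List.count_filter (by simpa using ha), List.count_filter (by simpa using ha)]
            exact hcount a)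
      have hS2 := rep3 hS h hh0 (u.count h) (v.count h) (List.count_pos_iff.2 hhu)
        (List.count_pos_iff.2 hhv) (hcount h)
      have hp1 := perm_h hS (perm_split h u) hu
      have hp2 := perm_h hS (perm_split h v) hv
      exact hS.trans hp1 (hS.trans (hS.app hS2 hS1) (hS.symm hp2))

end Pool.Agent.MWV.H4
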